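import Pool.Agent.DIF.Stmts

/-!
# DIF, row DRS: the rotation by a variable angle is a diffeomorphism of the sphere
-/

set_option autoImplicit false

open scoped InnerProductSpace Topology ContDiff Manifold
open MeasureTheory Filter Set

noncomputable section

namespace Pool.Agent.DIF.H25

open Pool.Agent.Helper42_Paneitz Pool.Agent.Helper82_Vir Pool.Agent.FLX

theorem nrmz_coe {v : E5} (hv : ‖v‖ = 1) (x : S4) : (nrmz v x : E5) = v := by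
  have h : v ≠ 0 := by
    intro h
    rw [h, norm_zero] at hv
    exact zero_ne_one hv
  unfold nrmz
  rw [dif_pos h]
  show ‖v‖⁻¹ • v = v
  rw [hv, inv_one, one_smul]

theorem rot_rot {p q : E5} (hp : ‖p‖ = 1) (hq : ‖q‖ = 1) (hpq : ⟪p, q⟫_ℝ = 0) (t : ℝ) (y : E5) :
    rot q p t (rot p q t y) = y := by
  have hqp : ⟪q, p⟫_ℝ = 0 := by rw [real_inner_comm]; exact hpq
  have h1 := inner_rot_left hp hpq t y
  have h2 := inner_rot_right hq hpq t y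
  have hsc := Real.sin_sq_add_cos_sq t
  have h3 : rot q p t (rot p q t y) = y +
      ((Real.cos t - 1) * ⟪p, y⟫_ℝ - Real.sin t * ⟪q, y⟫_ℝ +
        (Real.cos t - 1) * ⟪p, rot p q t y⟫_ℝ + Real.sin t * ⟪q, rot p q t y⟫_ℝ) • p +
      ((Real.cos t - 1) * ⟪q, y⟫_ℝ + Real.sin t * ⟪p, y⟫_ℝ +
        (Real.cos t - 1) * ⟪q, rot p q t y⟫_ℝ - Real.sin t * ⟪p, rot p q t y⟫_ℝ) • q := by
    have h4 : ∀ z : E5, rot q p t z = z + (Real.cos t - 1) • (⟪q, z⟫_ℝ • q + ⟪p, z⟫_ℝ • p) +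
      Real.sin t • (⟪q, z⟫_ℝ • p - ⟪p, z⟫_ℝ • q) := fun _ => rfl
    have h5 : rot p q t y = y + (Real.cos t - 1) • (⟪p, y⟫_ℝ • p + ⟪q, y⟫_ℝ • q) +
      Real.sin t • (⟪p, y⟫_ℝ • q - ⟪q, y⟫_ℝ • p) := rfl
    rw [h4]
    generalize ⟪p, rot p q t y⟫_ℝ = A
    generalize ⟪q, rot p q t y⟫_ℝ = B
    rw [h5]
    module
  rw [h3, h1, h2]
  have e1 : (Real.cos t - 1) * ⟪p, y⟫_ℝ - Real.sin t * ⟪q, y⟫_ℝ +
        (Real.cos t - 1) * (Real.cos t * ⟪p, y⟫_ℝ - Real.sin t * ⟪q, y⟫_ℝ) +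
          Real.sin t * (Real.cos t * ⟪q, y⟫_ℝ + Real.sin t * ⟪p, y⟫_ℝ) = 0 := by
    linear_combination ⟪p, y⟫_ℝ * hsc
  have e2 : (Real.cos t - 1) * ⟪q, y⟫_ℝ + Real.sin t * ⟪p, y⟫_ℝ +
        (Real.cos t - 1) * (Real.cos t * ⟪q, y⟫_ℝ + Real.sin t * ⟪p, y⟫_ℝ) -
          Real.sin t * (Real.cos t * ⟪p, y⟫_ℝ - Real.sin t * ⟪q, y⟫_ℝ) = 0 := by
    linear_combination ⟪q, y⟫_ℝ * hsc
  rw [e1, e2, zero_smul, zero_smul, add_zero, add_zero]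

theorem inner_rot_n {p q n : E5} (hpn : ⟪p, n⟫_ℝ = 0) (hqn : ⟪q, n⟫_ℝ = 0) (t : ℝ) (y : E5) :
    ⟪n, rot p q t y⟫_ℝ = ⟪n, y⟫_ℝ := by
  have h1 : ⟪n, p⟫_ℝ = 0 := by rw [real_inner_comm]; exact hpn
  have h2 : ⟪n, q⟫_ℝ = 0 := by rw [real_inner_comm]; exact hqn
  simp only [rot, inner_add_right, inner_sub_right, inner_smul_right, h1, h2]
  ring

theorem rsh_coe {p q : E5} (n : E5) (k : ℝ) (hp : ‖p‖ = 1) (hq : ‖q‖ = 1) (hpq : ⟪p, q⟫_ℝ = 0)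
    (x : S4) : (rsh p q n k x : E5) = rot p q (ang k ⟪n, (x : E5)⟫_ℝ) (x : E5) := by
  unfold rsh
  exact nrmz_coe (by rw [norm_rot hp hq hpq, S4_norm]) x

theorem rsh_smooth (smo : SmoStmt) {p q : E5} (n : E5) (k : ℝ) (hp : ‖p‖ = 1) (hq : ‖q‖ = 1)
    (hpq : ⟪p, q⟫_ℝ = 0) : ContMDiff (𝓡 4) (𝓡 4) ∞ (rsh p q n k) := by
  refine smo.1 (fun y => rot p q (ang k ⟪n, y⟫_ℝ) y) _ (fun x => ?_)
    (fun x => rsh_coe n k hp hq hpq x)
  have hi : ∀ v : E5, ContDiff ℝ ∞ (fun y : E5 => ⟪v, y⟫_ℝ) := fun v =>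
    contDiff_const.inner ℝ contDiff_id
  have ha : ContDiff ℝ ∞ (fun y : E5 => ang k ⟪n, y⟫_ℝ) := by
    unfold ang
    exact contDiff_const.sub (Real.contDiff_arctan.comp (contDiff_const.mul (hi n)))
  have hc : ContDiff ℝ ∞ (fun y : E5 => Real.cos (ang k ⟪n, y⟫_ℝ)) := Real.contDiff_cos.comp ha
  have hs : ContDiff ℝ ∞ (fun y : E5 => Real.sin (ang k ⟪n, y⟫_ℝ)) := Real.contDiff_sin.comp ha
  unfold rot
  refine ContDiff.contDiffAt ?_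
  refine (contDiff_id.add ((hc.sub contDiff_const).smul
    (((hi p).smul contDiff_const).add ((hi q).smul contDiff_const)))).add (hs.smul
    (((hi p).smul contDiff_const).sub ((hi q).smul contDiff_const)))

theorem drs (smo : SmoStmt) : DrsStmt := by
  intro p q n k hp hq hpq hpn hqn
  have hqp : ⟪q, p⟫_ℝ = 0 := by rw [real_inner_comm]; exact hpq
  refine ⟨?_, fun x => rsh_coe n k hp hq hpq x⟩
  refine smo.2.1 _ (rsh q p n k) (rsh_smooth smo n k hp hq hpq) (rsh_smooth smo n k hq hp hqp)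
    (fun x => ?_) (fun x => ?_)
  · apply Subtype.ext
    rw [rsh_coe n k hp hq hpq, rsh_coe n k hq hp hqp, inner_rot_n hqn hpn, rot_rot hq hp hqp]
  · apply Subtype.ext
    rw [rsh_coe n k hq hp hqp, rsh_coe n k hp hq hpq, inner_rot_n hpn hqn, rot_rot hp hq hpq]

end Pool.Agent.DIF.H25
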