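import Pool.Agent.DIF.Stmts
import Pool.Agent.FLX.Kit
import Pool.Agent.Helper10_FLX.Exp

/-!
# DIF, row EXQ: the first moment of `q` composed with a Moebius map
-/

set_option autoImplicit false

open scoped InnerProductSpace Topology ContDiff
open MeasureTheory Filter Set

noncomputable section

namespace Pool.Agent.DIF.H25

open Pool.Agent.Helper42_Paneitz Pool.Agent.Helper82_Vir Pool.Agent.FLX
open Pool.Agent.FLX.H10 (cA cB cA_est cB_est cont_in)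

theorem int_vec {f : S4 → E5} (hf : Continuous f) : Integrable f sig :=
  hf.integrable_of_hasCompactSupport (HasCompactSupport.of_compactSpace _)

theorem exq (moa : MoaStmt) (mos : MosStmt) (mom : MomStmt) : ExqStmt := by
  refine ⟨2208 * √msig, by positivity, ?_⟩
  intro q b hq hb2
  have hb1 : ‖b‖ < 1 := by linarith
  have hnb : ‖-b‖ < 1 := by rwa [norm_neg]
  set V : E5 := ∫ y : S4, q (mob b y) • (y : E5) ∂sig with hV
  set W : E5 := (∫ y : S4, q y • (y : E5) ∂sig) + Mg q b with hW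
  -- continuity of the Moebius map
  have hmobc : Continuous (fun y : S4 => mob b y) := by
    exact mos.1.comp_continuous (f := fun y : S4 => (b, y)) (continuous_const.prodMk continuous_id)
      (fun _ => hb1)
  have hVi : Integrable (fun y : S4 => q (mob b y) • (y : E5)) sig :=
    int_vec ((hq.comp hmobc).smul continuous_subtype_val)
  obtain ⟨a1, a2, _, a4, _, _⟩ := moa (-b) hnb
  -- the change of variables
  have hkey : ∀ v : E5, ⟪v, V⟫_ℝ = ∫ y : S4, q y *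
      (cA ‖b‖ ⟪b, (y : E5)⟫_ℝ * ⟪v, (y : E5)⟫_ℝ - cB ‖b‖ ⟪b, (y : E5)⟫_ℝ * ⟪v, b⟫_ℝ) ∂sig := by
    intro v
    rw [hV, ← integral_inner hVi v]
    have h1 := mom (-b) hnb (fun y => ⟪v, q (mob b y) • (y : E5)⟫_ℝ)
    rw [← h1]
    congr 1
    funext y
    have h2 : mob b (mob (-b) y) = y := by
      have := a4 y
      rwa [neg_neg] at this
    have h3 := a1 y
    rw [inner_neg_left] at h3
    have h4 : 0 < 1 - ⟪b, (y : E5)⟫_ℝ := by linarith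
    rw [h2, real_inner_smul_right, a2 y]
    unfold mobE Jac cA cB FLX.sq
    rw [real_inner_smul_right, inner_add_right, real_inner_smul_right, real_inner_smul_right,
      inner_neg_right, inner_neg_left, norm_neg]
    have h5 : (0 : ℝ) < 1 + √(1 - ‖b‖ ^ 2) := by
      have := Real.sqrt_nonneg (1 - ‖b‖ ^ 2)
      linarith
    have h6 : (1 : ℝ) + -⟪b, (y : E5)⟫_ℝ = 1 - ⟪b, (y : E5)⟫_ℝ := by ring
    rw [h6]
    field_simp
    ring
  -- the main term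
  have hmain : ∀ v : E5, ⟪v, W⟫_ℝ = ∫ y : S4, q y *
      ((1 + 5 * ⟪b, (y : E5)⟫_ℝ) * ⟪v, (y : E5)⟫_ℝ - ⟪v, b⟫_ℝ) ∂sig := by
    intro v
    have c1 : Continuous (fun y : S4 => q y * ⟪v, (y : E5)⟫_ℝ) := hq.mul (cont_in v)
    have c2 : Continuous (fun y : S4 => (q y * ⟪b, (y : E5)⟫_ℝ) * ⟪v, (y : E5)⟫_ℝ) :=
      (hq.mul (cont_in b)).mul (cont_in v)
    have i1 := integrable_cont c1
    have i2 := (integrable_cont c2).const_mul 5
    have i3 : Integrable (fun y : S4 => q y * ⟪v, b⟫_ℝ) sig :=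
      integrable_cont (hq.mul continuous_const)
    have j1 : Integrable (fun y : S4 => q y • (y : E5)) sig :=
      int_vec (hq.smul continuous_subtype_val)
    have j2 : Integrable (fun y : S4 => (q y * ⟪b, (y : E5)⟫_ℝ) • (y : E5)) sig :=
      int_vec ((hq.mul (cont_in b)).smul continuous_subtype_val)
    have i12 : Integrable (fun y : S4 => q y * ⟪v, (y : E5)⟫_ℝ +
        5 * ((q y * ⟪b, (y : E5)⟫_ℝ) * ⟪v, (y : E5)⟫_ℝ)) sig := i1.add i2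
    rw [hW, inner_add_right]
    unfold Mg
    rw [inner_sub_right, real_inner_smul_right, real_inner_smul_right, ← integral_inner j1 v,
      ← integral_inner j2 v]
    simp only [real_inner_smul_right]
    rw [← integral_mul_const, ← integral_const_mul, ← add_sub_assoc, ← integral_add i1 i2,
      ← integral_sub i12 i3]
    congr 1
    funext y
    ring
  -- the error
  have herr : ∀ v : E5, |⟪v, V - W⟫_ℝ| ≤ 2208 * √msig * ‖b‖ ^ 2 * N2 q * ‖v‖ := by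
    intro v
    have hct : Continuous (fun y : S4 => ⟪b, (y : E5)⟫_ℝ) := cont_in b
    have hden : ∀ y : S4, (1 - ⟪b, (y : E5)⟫_ℝ) ^ 5 ≠ 0 := by
      intro y
      have h3 := a1 y
      rw [inner_neg_left] at h3
      have h4 : 0 < 1 - ⟪b, (y : E5)⟫_ℝ := by linarith
      positivity
    have hcA : Continuous (fun y : S4 => cA ‖b‖ ⟪b, (y : E5)⟫_ℝ) := by
      unfold cA
      exact continuous_const.div ((continuous_const.sub hct).pow 5) hden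
    have hcB : Continuous (fun y : S4 => cB ‖b‖ ⟪b, (y : E5)⟫_ℝ) := by
      unfold cB
      exact (continuous_const.mul (continuous_const.sub (hct.div_const _))).div
        ((continuous_const.sub hct).pow 5) hden
    have c1 : Continuous (fun y : S4 =>
        (cA ‖b‖ ⟪b, (y : E5)⟫_ℝ * ⟪v, (y : E5)⟫_ℝ - cB ‖b‖ ⟪b, (y : E5)⟫_ℝ * ⟪v, b⟫_ℝ)) :=
      (hcA.mul (cont_in v)).sub (hcB.mul continuous_const)
    have c2 : Continuous (fun y : S4 =>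
        ((1 + 5 * ⟪b, (y : E5)⟫_ℝ) * ⟪v, (y : E5)⟫_ℝ - ⟪v, b⟫_ℝ)) :=
      ((continuous_const.add (continuous_const.mul hct)).mul (cont_in v)).sub
        continuous_const
    rw [inner_sub_right, hkey, hmain, ← integral_sub (integrable_cont (hq.fun_mul c1))
      (integrable_cont (hq.fun_mul c2))]
    have hpt : ∀ y : S4, |(cA ‖b‖ ⟪b, (y : E5)⟫_ℝ * ⟪v, (y : E5)⟫_ℝ -
        cB ‖b‖ ⟪b, (y : E5)⟫_ℝ * ⟪v, b⟫_ℝ) - ((1 + 5 * ⟪b, (y : E5)⟫_ℝ) * ⟪v, (y : E5)⟫_ℝ -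
          ⟪v, b⟫_ℝ)| ≤ 2208 * ‖b‖ ^ 2 * ‖v‖ := by
      intro y
      have t1 : |⟪b, (y : E5)⟫_ℝ| ≤ ‖b‖ := by
        have := abs_real_inner_le_norm b (y : E5)
        rwa [S4_norm, mul_one] at this
      have t2 : |⟪v, (y : E5)⟫_ℝ| ≤ ‖v‖ := by
        have := abs_real_inner_le_norm v (y : E5)
        rwa [S4_norm, mul_one] at this
      have t3 : |⟪v, b⟫_ℝ| ≤ ‖v‖ * ‖b‖ := abs_real_inner_le_norm v b
      have A1 := cA_est (norm_nonneg b) hb2 t1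
      have B1 := cB_est (norm_nonneg b) hb2 t1
      have e1 : (cA ‖b‖ ⟪b, (y : E5)⟫_ℝ * ⟪v, (y : E5)⟫_ℝ -
          cB ‖b‖ ⟪b, (y : E5)⟫_ℝ * ⟪v, b⟫_ℝ) - ((1 + 5 * ⟪b, (y : E5)⟫_ℝ) *
            ⟪v, (y : E5)⟫_ℝ - ⟪v, b⟫_ℝ) =
          (cA ‖b‖ ⟪b, (y : E5)⟫_ℝ - (1 + 5 * ⟪b, (y : E5)⟫_ℝ)) * ⟪v, (y : E5)⟫_ℝ -
            (cB ‖b‖ ⟪b, (y : E5)⟫_ℝ - 1) * ⟪v, b⟫_ℝ := by ring
      rw [e1]
      refine (abs_sub _ _).trans ?_
      rw [abs_mul, abs_mul]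
      calc |cA ‖b‖ ⟪b, (y : E5)⟫_ℝ - (1 + 5 * ⟪b, (y : E5)⟫_ℝ)| * |⟪v, (y : E5)⟫_ℝ| +
            |cB ‖b‖ ⟪b, (y : E5)⟫_ℝ - 1| * |⟪v, b⟫_ℝ|
          ≤ (1696 * ‖b‖ ^ 2) * ‖v‖ + (512 * ‖b‖) * (‖v‖ * ‖b‖) := by gcongr
        _ = 2208 * ‖b‖ ^ 2 * ‖v‖ := by ring
    have e2 : ∫ y : S4, (q y * (cA ‖b‖ ⟪b, (y : E5)⟫_ℝ * ⟪v, (y : E5)⟫_ℝ -
        cB ‖b‖ ⟪b, (y : E5)⟫_ℝ * ⟪v, b⟫_ℝ) - q y * ((1 + 5 * ⟪b, (y : E5)⟫_ℝ) *
          ⟪v, (y : E5)⟫_ℝ - ⟪v, b⟫_ℝ)) ∂sig =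
        ∫ y : S4, q y * ((cA ‖b‖ ⟪b, (y : E5)⟫_ℝ * ⟪v, (y : E5)⟫_ℝ -
        cB ‖b‖ ⟪b, (y : E5)⟫_ℝ * ⟪v, b⟫_ℝ) - ((1 + 5 * ⟪b, (y : E5)⟫_ℝ) *
          ⟪v, (y : E5)⟫_ℝ - ⟪v, b⟫_ℝ)) ∂sig := by
      congr 1
      funext y
      ring
    rw [e2]
    refine (abs_integral_mul_le hq (c1.sub c2)).trans ?_
    have h8 := mul_le_mul_of_nonneg_left (N2_le_of_bound (c1.sub c2) hpt) (N2_nonneg q)
    refine h8.trans (le_of_eq ?_)
    ring
  have h10 := herr (V - W)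
  rw [real_inner_self_eq_norm_sq, abs_of_nonneg (sq_nonneg _)] at h10
  have h0 : V - (∫ y : S4, q y • (y : E5) ∂sig) - Mg q b = V - W := by
    rw [hW, sub_add_eq_sub_sub]
  rw [h0]
  have hn := N2_nonneg q
  rcases (norm_nonneg (V - W)).eq_or_lt with h | h
  · rw [← h]; positivity
  · have : ‖V - W‖ * ‖V - W‖ ≤ 2208 * √msig * ‖b‖ ^ 2 * N2 q * ‖V - W‖ := by
      rw [← pow_two]; exact h10
    exact le_of_mul_le_mul_right this h

end Pool.Agent.DIF.H25
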