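import Pool.Agent.DIF.Stmts

/-!
# DIF, row SMO: smooth maps into the sphere and diffeomorphisms
-/

set_option autoImplicit false

open scoped InnerProductSpace Topology ContDiff Manifold
open MeasureTheory Filter Set

noncomputable section

namespace Pool.Agent.DIF.H25

open Pool.Agent.Helper42_Paneitz Pool.Agent.Helper82_Vir Pool.Agent.FLX

theorem smo : SmoStmt := by
  refine ⟨?_, ?_, ?_, ?_⟩
  · intro F φ hF hφ
    have := fact_E5
    have h1 : ContMDiff (𝓡 4) 𝓘(ℝ, E5) ∞ (fun x : S4 => F (x : E5)) := by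
      intro x
      exact (hF x).contMDiffAt.comp x contMDiff_coe_S4.contMDiffAt
    have h2 : ∀ x : S4, F (x : E5) ∈ Metric.sphere (0 : E5) 1 := by
      intro x
      rw [← hφ]
      exact (φ x).2
    have h3 := h1.codRestrict_sphere (n := 4) h2
    have h4 : Set.codRestrict (fun x : S4 => F (x : E5)) _ h2 = φ := by
      funext x
      exact Subtype.ext (hφ x).symm
    rw [h4] at h3
    exact h3
  · intro φ ψ hφ hψ h1 h2
    exact ⟨⟨⟨φ, ψ, h2, h1⟩, hφ, hψ⟩, fun x => rfl⟩
  · rintro φ ψ ⟨φ', h1⟩ ⟨ψ', h2⟩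
    exact ⟨ψ'.trans φ', fun x => by
      show φ' (ψ' x) = φ (ψ x)
      rw [h1, h2]⟩
  · rintro Q φ hQ ⟨φ', h⟩
    have h1 := (contMDiff_of_sm hQ).comp φ'.contMDiff
    have h2 : Q ∘ φ' = fun x => Q (φ x) := by
      funext x
      exact congrArg Q (h x)
    rw [h2] at h1
    exact sm_of_contMDiff h1

end Pool.Agent.DIF.H25
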